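import Pool.Agent.H86.BlD

namespace Pool.Agent.Results.MP_2139d9_an.NotProj
open Pool.Agent.H86.Bl

universe u

theorem result : ∃ (P₁ P₂ : Type) (_ : BL P₁) (_ : BL P₂), Proj.{u} P₁ ∧ Proj.{u} P₂ ∧
    HasTOU P₁ ∧ HasTOU P₂ ∧ ¬ Proj.{0} (P₁ × P₂) :=
  ⟨W, ℝ, inferInstance, inferInstance, proj_W, proj_real, tou_W, tou_real,
    fun h => not_semi h.semi⟩

end Pool.Agent.Results.MP_2139d9_an.NotProj
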